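import Mathlib
import Pool.Agent.Y866.EC.Stm

set_option autoImplicit false

open Finset Filter Topology

namespace Pool.Agent.Y908.EC

open Pool.Agent.Y866.EC

theorem half (m : ℕ) : (2:ℕ) ^ (2 * m) ≤ 2 * ∑ n ∈ range (m + 1), (2 * m).choose n := by
  have h0 : ∑ n ∈ range (2 * m + 1), (2 * m).choose n = 2 ^ (2 * m) :=
    Nat.sum_range_choose (2 * m)
  have h1 : 2 * m + 1 = (m + 1) + m := by ring
  rw [← h0, h1, sum_range_add, two_mul (∑ n ∈ range (m + 1), (2 * m).choose n)]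
  apply Nat.add_le_add_left
  have h2 : ∑ x ∈ range m, (2 * m).choose (m + 1 + x)
      = ∑ x ∈ range m, (2 * m).choose (m - 1 - x) := by
    apply sum_congr rfl
    intro x hx
    rw [mem_range] at hx
    have h3 : m + 1 + x ≤ 2 * m := by omega
    rw [← Nat.choose_symm h3]
    congr 1
    omega
  rw [h2, sum_range_reflect (fun x => (2 * m).choose x) m, sum_range_succ]
  exact Nat.le_add_right _ _

theorem low (k : ℕ) : ∑ n ∈ range k, ((26 * k).choose n : ℝ) ≤ 2 ^ k * (3 / 2 : ℝ) ^ (26 * k) := by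
  have h1 : (3 / 2 : ℝ) ^ (26 * k) =
      ∑ n ∈ range (26 * k + 1), ((26 * k).choose n : ℝ) * (1 / 2 : ℝ) ^ n := by
    have := add_pow (1 / 2 : ℝ) 1 (26 * k)
    rw [show (1 / 2 : ℝ) + 1 = 3 / 2 by norm_num] at this
    rw [this]
    apply sum_congr rfl
    intro n _
    rw [one_pow]
    ring
  rw [h1, mul_sum]
  have hsub : range k ⊆ range (26 * k + 1) := by
    intro n hn
    rw [mem_range] at hn ⊢
    omega
  calc ∑ n ∈ range k, ((26 * k).choose n : ℝ)
      ≤ ∑ n ∈ range k, 2 ^ k * (((26 * k).choose n : ℝ) * (1 / 2 : ℝ) ^ n) := by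
        apply sum_le_sum
        intro n hn
        rw [mem_range] at hn
        have h2 : (1 : ℝ) ≤ 2 ^ k * (1 / 2 : ℝ) ^ n := by
          have h3 : (2 : ℝ) ^ n ≤ 2 ^ k := pow_le_pow_right₀ (by norm_num) hn.le
          have h4 : (2 : ℝ) ^ n * (1 / 2 : ℝ) ^ n = 1 := by rw [← mul_pow]; norm_num
          calc (1 : ℝ) = (2 : ℝ) ^ n * (1 / 2 : ℝ) ^ n := h4.symm
            _ ≤ _ := mul_le_mul_of_nonneg_right h3 (by positivity)
        calc ((26 * k).choose n : ℝ) = ((26 * k).choose n : ℝ) * 1 := by ring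
          _ ≤ ((26 * k).choose n : ℝ) * (2 ^ k * (1 / 2 : ℝ) ^ n) :=
            mul_le_mul_of_nonneg_left h2 (by positivity)
          _ = _ := by ring
    _ ≤ _ := sum_le_sum_of_subset_of_nonneg hsub (fun _ _ _ => by positivity)

theorem bin : S_BIN := by
  intro k hk
  have h1 : (2:ℝ) ^ (26 * k) ≤ 2 * ∑ n ∈ range (13 * k + 1), ((26 * k).choose n : ℝ) := by
    have := half (13 * k)
    rw [show 2 * (13 * k) = 26 * k by ring] at this
    exact_mod_cast this
  have h2 := low k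
  have h3 : ∑ n ∈ range (13 * k + 1), ((26 * k).choose n : ℝ) =
      ∑ n ∈ range k, ((26 * k).choose n : ℝ) + ∑ n ∈ Icc k (13 * k), ((26 * k).choose n : ℝ) := by
    have : Icc k (13 * k) = Ico k (13 * k + 1) := by
      ext n; simp only [mem_Icc, mem_Ico]; omega
    rw [this, sum_range_add_sum_Ico _ (by omega)]
  have h4 : (1 / 2 : ℝ) ^ (26 * k) * 2 ^ (26 * k) = 1 := by rw [← mul_pow]; norm_num
  have h5 : (1 / 2 : ℝ) ^ (26 * k) * (2 ^ k * (3 / 2 : ℝ) ^ (26 * k)) ≤ 1 / 4 := by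
    have e : (1 / 2 : ℝ) ^ (26 * k) * (2 ^ k * (3 / 2 : ℝ) ^ (26 * k)) =
        (2 * (3 / 4 : ℝ) ^ 26) ^ k := by
      rw [mul_pow 2, ← pow_mul, mul_left_comm, ← mul_pow]
      norm_num
    rw [e]
    calc (2 * (3 / 4 : ℝ) ^ 26) ^ k ≤ (1 / 4 : ℝ) ^ k := by
          apply pow_le_pow_left₀ (by positivity)
          norm_num
      _ ≤ (1 / 4 : ℝ) ^ 1 := pow_le_pow_of_le_one (by norm_num) (by norm_num) hk
      _ = 1 / 4 := by norm_num
  have h6 : 0 < (1 / 2 : ℝ) ^ (26 * k) := by positivity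
  have h7 := mul_le_mul_of_nonneg_left h1 h6.le
  have h8 := mul_le_mul_of_nonneg_left h2 h6.le
  rw [h4, h3] at h7
  linarith

end Pool.Agent.Y908.EC
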