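import Mathlib
import Pool.Agent.Y866.EC.Stm

set_option autoImplicit false

open Finset Filter Topology

namespace Pool.Agent.Y908.EC

open Pool.Agent.Y866.EC

theorem xl (x θ : ℝ) (hx : 0 ≤ x) (hθ : 0 < θ) :
    x * Real.log θ + x - θ ≤ x * Real.log x := by
  rcases hx.eq_or_lt with h | h
  · rw [← h]; simp [hθ.le]
  · have h1 := Real.log_le_sub_one_of_pos (div_pos hθ h)
    rw [Real.log_div hθ.ne' h.ne'] at h1
    have h2 := mul_le_mul_of_nonneg_left h1 h.le
    have h3 : x * (θ / x - 1) = θ - x := by field_simp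
    rw [h3] at h2
    linarith

theorem ent1 : S_ENT1 := by
  intro V _ _ p g b c β hg hb hp hs hc hβ hc1
  obtain ⟨N, hN⟩ : ∃ N : ℝ, N = (Fintype.card V : ℝ) := ⟨_, rfl⟩
  have hN1 : 1 ≤ N := by
    rw [hN]
    exact_mod_cast Fintype.card_pos
  have hN0 : 0 < N := by linarith
  rw [← hN] at hc ⊢
  have hp0 : ∀ y, 0 ≤ p y := fun y => by rw [hp y]; exact add_nonneg (hg y) (hb y)
  have hp1 : ∀ y, p y ≤ 1 := fun y => by
    rw [← hs]
    exact single_le_sum (fun z _ => hp0 z) (mem_univ y)
  have hlN : 0 ≤ Real.log N := Real.log_nonneg hN1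
  have hlc : 0 ≤ Real.log c := Real.log_nonneg hc1
  have key : ∀ y, p y * Real.log (p y / (1 / N)) ≤
      g y * Real.log c + b y * (1 + Real.log N) := by
    intro y
    rcases (hp0 y).eq_or_lt with h | h
    · rw [← h, zero_mul]
      exact add_nonneg (mul_nonneg (hg y) hlc) (mul_nonneg (hb y) (by linarith))
    · have e : p y / (1 / N) = N * p y := by field_simp
      rw [e]
      have h1 : Real.log (N * p y) ≤ Real.log N :=
        Real.log_le_log (by positivity) (mul_le_of_le_one_right hN0.le (hp1 y))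
      have h2 : b y * Real.log (N * p y) ≤ b y * Real.log N := mul_le_mul_of_nonneg_left h1 (hb y)
      have h3 : g y * Real.log (N * p y) ≤ g y * Real.log c + b y := by
        rcases (hg y).eq_or_lt with h' | h'
        · rw [← h', zero_mul, zero_mul, zero_add]
          exact hb y
        · have e2 : N * p y = (N * g y) * (p y / g y) := by field_simp
          rw [e2, Real.log_mul (by positivity) (by positivity)]
          have h4 : Real.log (N * g y) ≤ Real.log c := by
            apply Real.log_le_log (by positivity)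
            have := hc y
            rw [le_div_iff₀ hN0] at this
            linarith
          have h5 : Real.log (p y / g y) ≤ p y / g y - 1 :=
            Real.log_le_sub_one_of_pos (by positivity)
          have h6 : g y * (p y / g y - 1) = b y := by
            rw [mul_sub, mul_one, mul_div_cancel₀ _ h'.ne', hp y]
            ring
          have h7 := mul_le_mul_of_nonneg_left h4 h'.le
          have h8 := mul_le_mul_of_nonneg_left h5 h'.le
          rw [h6] at h8
          linarith
      calc p y * Real.log (N * p y)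
          = g y * Real.log (N * p y) + b y * Real.log (N * p y) := by
            rw [← add_mul, ← hp y]
        _ ≤ _ := by linarith
  have hsg : ∑ y, g y ≤ 1 := by
    rw [← hs]
    apply sum_le_sum
    intro y _
    rw [hp y]
    linarith [hb y]
  calc ∑ y, p y * Real.log (p y / (1 / N))
      ≤ ∑ y, (g y * Real.log c + b y * (1 + Real.log N)) := sum_le_sum (fun y _ => key y)
    _ = (∑ y, g y) * Real.log c + (∑ y, b y) * (1 + Real.log N) := by
        rw [sum_add_distrib, sum_mul, sum_mul]
    _ ≤ 1 * Real.log c + β * (1 + Real.log N) :=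
        add_le_add (mul_le_mul_of_nonneg_right hsg hlc)
          (mul_le_mul_of_nonneg_right hβ (by linarith))
    _ = _ := by ring

theorem ent2 : S_ENT2 := by
  classical
  intro V _ _ p E α l hp hs hα hl hE
  obtain ⟨N, hN⟩ : ∃ N : ℝ, N = (Fintype.card V : ℝ) := ⟨_, rfl⟩
  have hN1 : 1 ≤ N := by
    rw [hN]
    exact_mod_cast Fintype.card_pos
  have hN0 : 0 < N := by linarith
  rw [← hN] at hE ⊢
  have key : ∀ (y : V) (t : ℝ), p y * t + p y - Real.exp t / N ≤
      p y * Real.log (p y / (1 / N)) := by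
    intro y t
    have e : p y / (1 / N) = N * p y := by field_simp
    rw [e]
    have h1 := xl (N * p y) (Real.exp t) (mul_nonneg hN0.le (hp y)) (Real.exp_pos t)
    rw [Real.log_exp] at h1
    have h2 := div_le_div_of_nonneg_right h1 hN0.le
    have e1 : (N * p y * t + N * p y - Real.exp t) / N = p y * t + p y - Real.exp t / N := by
      field_simp
    have e2 : N * p y * Real.log (N * p y) / N = p y * Real.log (N * p y) := by
      field_simp
    rw [e1, e2] at h2
    exact h2
  have hsplit : ∀ f : V → ℝ, ∑ y, f y = ∑ y ∈ E, f y + ∑ y ∈ Eᶜ, f y := fun f =>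
    (sum_add_sum_compl E f).symm
  have h1 : ∑ y ∈ E, (p y * l + p y - Real.exp l / N) ≤
      ∑ y ∈ E, p y * Real.log (p y / (1 / N)) := sum_le_sum (fun y _ => key y l)
  have h2 : ∑ y ∈ Eᶜ, (p y * 0 + p y - Real.exp 0 / N) ≤
      ∑ y ∈ Eᶜ, p y * Real.log (p y / (1 / N)) := sum_le_sum (fun y _ => key y 0)
  rw [hsplit (fun y => p y * Real.log (p y / (1 / N)))]
  rw [sum_sub_distrib, sum_add_distrib, ← sum_mul, sum_const, nsmul_eq_mul] at h1
  simp only [mul_zero, zero_add, Real.exp_zero] at h2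
  rw [sum_sub_distrib, sum_const, nsmul_eq_mul] at h2
  have h3 := hsplit p
  rw [hs] at h3
  have h4 : (E.card : ℝ) * (Real.exp l / N) ≤ 1 := by
    calc (E.card : ℝ) * (Real.exp l / N) ≤ (Real.exp (-l) * N) * (Real.exp l / N) :=
          mul_le_mul_of_nonneg_right hE (by positivity)
      _ = (Real.exp (-l) * Real.exp l) * (N / N) := by ring
      _ = 1 := by rw [← Real.exp_add, neg_add_cancel, Real.exp_zero, div_self hN0.ne', one_mul]
  have h5 : (Eᶜ.card : ℝ) * (1 / N) ≤ 1 := by
    have : (Eᶜ.card : ℝ) ≤ N := by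
      rw [hN]
      exact_mod_cast card_le_univ _
    rw [mul_one_div, div_le_one hN0]
    exact this
  have h6 : α * l ≤ (∑ y ∈ E, p y) * l := mul_le_mul_of_nonneg_right hα hl
  linarith

theorem ent3 : S_ENT3 := by
  classical
  intro V _ _ p E hp hs hE0 hE
  obtain ⟨N, hN⟩ : ∃ N : ℝ, N = (Fintype.card V : ℝ) := ⟨_, rfl⟩
  have hN1 : 1 ≤ N := by
    rw [hN]
    exact_mod_cast Fintype.card_pos
  have hN0 : 0 < N := by linarith
  rw [← hN]
  have h0 : ∑ y, |p y - 1 / N| = ∑ y ∈ E, |p y - 1 / N| + ∑ y ∈ Eᶜ, |p y - 1 / N| :=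
    (sum_add_sum_compl E _).symm
  have h1 : ∑ y ∈ E, (p y - 1 / N) ≤ ∑ y ∈ E, |p y - 1 / N| :=
    sum_le_sum (fun y _ => le_abs_self _)
  have h2 : ∑ y ∈ Eᶜ, (1 / N) ≤ ∑ y ∈ Eᶜ, |p y - 1 / N| := by
    apply sum_le_sum
    intro y hy
    rw [mem_compl] at hy
    rw [hE0 y hy, zero_sub, abs_neg, abs_of_pos (by positivity)]
  have h3 : ∑ y ∈ E, p y = 1 := by
    rw [← hs]
    exact sum_subset (subset_univ E) (fun y _ hy => hE0 y hy)
  rw [sum_sub_distrib, h3, sum_const, nsmul_eq_mul] at h1
  rw [sum_const, nsmul_eq_mul] at h2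
  have h4 : (E.card : ℝ) * (1 / N) ≤ 1 / 2 := by
    rw [mul_one_div, div_le_iff₀ hN0]
    have : ((2 * E.card : ℕ) : ℝ) ≤ (Fintype.card V : ℝ) := by exact_mod_cast hE
    rw [← hN] at this
    push_cast at this
    linarith
  have h5 : 1 / 2 ≤ (Eᶜ.card : ℝ) * (1 / N) := by
    have h6 : (E.card : ℝ) + (Eᶜ.card : ℝ) = N := by
      rw [hN]
      exact_mod_cast card_add_card_compl E
    have h7 : (E.card : ℝ) * (1 / N) + (Eᶜ.card : ℝ) * (1 / N) = 1 := by
      rw [← add_mul, h6]
      field_simp
    linarith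
  linarith

theorem ent4 : S_ENT4 := by
  classical
  intro V _ _ p g b f c β M hg hb hp hs hc hβ hf hM
  obtain ⟨N, hN⟩ : ∃ N : ℝ, N = (Fintype.card V : ℝ) := ⟨_, rfl⟩
  have hN1 : 1 ≤ N := by
    rw [hN]
    exact_mod_cast Fintype.card_pos
  have hN0 : 0 < N := by linarith
  rw [← hN] at hc
  have hM0 : 0 ≤ M := (abs_nonneg _).trans (hM (Classical.arbitrary V))
  have e1 : ∑ y, p y * f y = ∑ y, (p y - c / N) * f y := by
    have : ∑ y, (p y - c / N) * f y = ∑ y, p y * f y - c / N * ∑ y, f y := by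
      rw [mul_sum, ← sum_sub_distrib]
      apply sum_congr rfl
      intro y _
      ring
    rw [this, hf, mul_zero, sub_zero]
  rw [e1]
  have h1 : ∀ y, |(p y - c / N) * f y| ≤ ((c / N - g y) + b y) * M := by
    intro y
    rw [abs_mul]
    have h2 : |p y - c / N| ≤ (c / N - g y) + b y := by
      have := hc y
      have := hb y
      rw [hp y, abs_le]
      constructor <;> linarith
    exact mul_le_mul h2 (hM y) (abs_nonneg _) ((abs_nonneg _).trans h2)
  have h3 : ∑ y, g y + ∑ y, b y = 1 := by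
    rw [← sum_add_distrib, ← hs]
    exact sum_congr rfl (fun y _ => (hp y).symm)
  have h4 : ∑ _y : V, c / N = c := by
    rw [sum_const, nsmul_eq_mul, card_univ, ← hN]
    field_simp
  calc |∑ y, (p y - c / N) * f y| ≤ ∑ y, |(p y - c / N) * f y| := abs_sum_le_sum_abs _ _
    _ ≤ ∑ y, ((c / N - g y) + b y) * M := sum_le_sum (fun y _ => h1 y)
    _ = (c - ∑ y, g y + ∑ y, b y) * M := by
        rw [← sum_mul, sum_add_distrib, sum_sub_distrib, h4]
    _ ≤ (c - 1 + 2 * β) * M := by
        apply mul_le_mul_of_nonneg_right _ hM0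
        linarith

end Pool.Agent.Y908.EC
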