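import Mathlib
import Pool.Agent.Y866.EC.Stm

set_option autoImplicit false

open Finset Filter Topology

namespace Pool.Agent.Y908.EC

open Pool.Agent.Y866.EC

theorem sq_le (n : ℕ) : n * n ≤ 4 * 2 ^ n := by
  induction n with
  | zero => simp
  | succ n ih =>
    have h : n < 2 ^ n := Nat.lt_two_pow_self
    rw [pow_succ]
    nlinarith

theorem exa (k : ℕ) : ∃ a : ℕ, 1 ≤ a ∧ k ^ 5 * a ≤ 4 * 2 ^ a := by
  rcases Nat.eq_zero_or_pos k with rfl | h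
  · exact ⟨1, le_rfl, by norm_num⟩
  · exact ⟨k ^ 5, Nat.one_le_pow _ _ h, sq_le _⟩

open Classical in
/-- the exponent -/
noncomputable def ax (k : ℕ) : ℕ := Nat.find (exa k)

theorem ax_spec (k : ℕ) : 1 ≤ ax k ∧ k ^ 5 * ax k ≤ 4 * 2 ^ ax k := by
  classical
  exact Nat.find_spec (exa k)

theorem ax_le (k : ℕ) (hk : 1 ≤ k) : ax k ≤ k ^ 5 := by
  classical
  exact Nat.find_min' (exa k) ⟨Nat.one_le_pow _ _ hk, sq_le _⟩

theorem ax_min (k : ℕ) (hk : 2 ≤ k) : 2 * 2 ^ ax k ≤ k ^ 5 * ax k := by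
  classical
  have h32 : 32 ≤ k ^ 5 := by
    calc 32 = 2 ^ 5 := by norm_num
      _ ≤ k ^ 5 := Nat.pow_le_pow_left hk 5
  have h0 := ax_spec k
  have h1 : 2 ≤ ax k := by
    by_contra h
    have h2 : ax k = 1 := by omega
    rw [h2] at h0
    omega
  obtain ⟨b, hb⟩ : ∃ b, ax k = b + 1 := ⟨ax k - 1, by omega⟩
  have h3 : ¬ (1 ≤ b ∧ k ^ 5 * b ≤ 4 * 2 ^ b) :=
    Nat.find_min (exa k) (show b < ax k by omega)
  have h4 : 4 * 2 ^ b < k ^ 5 * b := by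
    by_contra h
    exact h3 ⟨by omega, by omega⟩
  rw [hb, pow_succ]
  nlinarith

section real

variable (k : ℕ) (A q : ℝ)

theorem r_q (h1 : (k:ℝ) ^ 5 * A ≤ 4 * q) (h3 : 1 ≤ A) : (k:ℝ) ^ 5 / 4 ≤ q := by
  have : (k:ℝ) ^ 5 * 1 ≤ (k:ℝ) ^ 5 * A := mul_le_mul_of_nonneg_left h3 (by positivity)
  linarith

theorem r_big (hk : 13 ≤ k) (h1 : (k:ℝ) ^ 5 * A ≤ 4 * q) (h3 : 1 ≤ A) : 6000 * (k:ℝ) ≤ q := by
  have h := r_q k A q h1 h3
  have hk' : (13:ℝ) ≤ k := by exact_mod_cast hk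
  have h4 : (13:ℝ) ^ 4 ≤ (k:ℝ) ^ 4 := pow_le_pow_left₀ (by norm_num) hk' 4
  have h5 : (k:ℝ) ^ 5 = (k:ℝ) ^ 4 * k := by ring
  rw [h5] at h
  nlinarith

theorem r_beta (hk : 13 ≤ k) (hq : 6000 * (k:ℝ) ≤ q) :
    0 ≤ beta k q ∧ beta k q ≤ 24 * k / q + 2 * (3 / 10 : ℝ) ^ k := by
  have hk' : (13:ℝ) ≤ k := by exact_mod_cast hk
  have hq0 : 0 < q := by linarith
  have h1 : 24 * (k:ℝ) / (4 * q) ≤ 1 / 1000 := by
    rw [div_le_div_iff₀ (by positivity) (by norm_num)]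
    linarith
  have h2 : (0:ℝ) ≤ 24 * (k:ℝ) / (4 * q) := by positivity
  unfold beta
  refine ⟨by positivity, ?_⟩
  apply add_le_add le_rfl
  have h3 : (3 / 4 + 24 * (k:ℝ) / (4 * q)) ^ (24 * k) ≤ (751 / 1000 : ℝ) ^ (24 * k) := by
    apply pow_le_pow_left₀ (by positivity)
    linarith
  calc (2:ℝ) ^ (8 * k + 1) * (3 / 4 + 24 * (k:ℝ) / (4 * q)) ^ (24 * k)
      ≤ (2:ℝ) ^ (8 * k + 1) * (751 / 1000 : ℝ) ^ (24 * k) :=
        mul_le_mul_of_nonneg_left h3 (by positivity)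
    _ = 2 * ((2:ℝ) ^ 8 * (751 / 1000 : ℝ) ^ 24) ^ k := by
        rw [mul_pow, ← pow_mul, ← pow_mul]
        ring
    _ ≤ 2 * (3 / 10 : ℝ) ^ k := by
        apply mul_le_mul_of_nonneg_left _ (by norm_num)
        apply pow_le_pow_left₀ (by positivity)
        norm_num

theorem r_cc (hk : 13 ≤ k) (hq : 6000 * (k:ℝ) ≤ q) :
    1 ≤ cc k q ∧ cc k q ≤ Real.exp (48 * k / q) := by
  have hk' : (13:ℝ) ≤ k := by exact_mod_cast hk
  have hq0 : 0 < q := by linarith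
  have hq2 : 0 < q - 2 := by linarith
  have e : (q - 1) / (q - 2) = 1 + 1 / (q - 2) := by field_simp; ring
  unfold cc
  rw [e]
  have h0 : 0 ≤ 1 / (q - 2) := by positivity
  refine ⟨one_le_pow₀ (by linarith), ?_⟩
  have h1 : 1 + 1 / (q - 2) ≤ Real.exp (1 / (q - 2)) := by
    have := Real.add_one_le_exp (1 / (q - 2))
    linarith
  calc (1 + 1 / (q - 2)) ^ (24 * k) ≤ (Real.exp (1 / (q - 2))) ^ (24 * k) :=
        pow_le_pow_left₀ (by positivity) h1 _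
    _ = Real.exp ((24 * k : ℕ) * (1 / (q - 2))) := by rw [← Real.exp_nat_mul]
    _ ≤ Real.exp (48 * k / q) := by
        apply Real.exp_le_exp.mpr
        push_cast
        rw [mul_one_div, div_le_div_iff₀ hq2 hq0]
        nlinarith

theorem r_main (hk : 13 ≤ k) (h1 : (k:ℝ) ^ 5 * A ≤ 4 * q) (h2 : 2 * q ≤ (k:ℝ) ^ 5 * A)
    (h3 : 1 ≤ A) :
    2 < (1 / 4) * (k / q) * (1 - 1 / q) ^ (26 * k) *
      (((k : ℝ) ^ 2 * (8 * k + 1) ^ 2 - 14 * k) * (A * Real.log 2) - Real.log 2) := by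
  have hk' : (13:ℝ) ≤ k := by exact_mod_cast hk
  have hq := r_big k A q hk h1 h3
  have hq0 : 0 < q := by linarith
  have hl1 := Real.log_two_gt_d9
  have hl2 := Real.log_two_lt_d9
  have b1 : (1 / 2 : ℝ) ≤ (1 - 1 / q) ^ (26 * k) := by
    have h4 : (-2 : ℝ) ≤ -(1 / q) := by
      have : 1 / q ≤ 1 := by rw [div_le_one hq0]; linarith
      linarith
    have h5 := one_add_mul_le_pow h4 (26 * k)
    have h6 : ((26 * k : ℕ) : ℝ) * (1 / q) ≤ 1 / 2 := by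
      push_cast
      rw [mul_one_div, div_le_div_iff₀ hq0 (by norm_num)]
      linarith
    calc (1 / 2 : ℝ) ≤ 1 + ((26 * k : ℕ) : ℝ) * -(1 / q) := by linarith
      _ ≤ (1 + -(1 / q)) ^ (26 * k) := h5
      _ = _ := by rw [← sub_eq_add_neg]
  have b2 : 32 * (k:ℝ) ^ 4 * (A * Real.log 2) ≤
      ((k : ℝ) ^ 2 * (8 * k + 1) ^ 2 - 14 * k) * (A * Real.log 2) - Real.log 2 := by
    have h4 : Real.log 2 ≤ A * Real.log 2 := by nlinarith
    have h5 : (k : ℝ) ^ 2 * (8 * k + 1) ^ 2 - 14 * k ≥ 32 * (k:ℝ) ^ 4 + 1 := by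
      have h6 : (13:ℝ) ^ 3 ≤ (k:ℝ) ^ 3 := pow_le_pow_left₀ (by norm_num) hk' 3
      have h7 : (k:ℝ) ^ 4 = (k:ℝ) ^ 3 * k := by ring
      nlinarith [sq_nonneg (k:ℝ)]
    have h6 : 0 < A * Real.log 2 := by positivity
    nlinarith
  have b3 : 0 < A * Real.log 2 := by positivity
  have b4 : (1 / 4) * ((k:ℝ) / q) * (1 / 2) * (32 * (k:ℝ) ^ 4 * (A * Real.log 2)) ≤
      (1 / 4) * (k / q) * (1 - 1 / q) ^ (26 * k) *
      (((k : ℝ) ^ 2 * (8 * k + 1) ^ 2 - 14 * k) * (A * Real.log 2) - Real.log 2) := by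
    apply mul_le_mul _ b2 (by positivity) (by positivity)
    exact mul_le_mul_of_nonneg_left b1 (by positivity)
  refine lt_of_lt_of_le ?_ b4
  have e : (1 / 4) * ((k:ℝ) / q) * (1 / 2) * (32 * (k:ℝ) ^ 4 * (A * Real.log 2)) =
      4 * (((k:ℝ) ^ 5 * A) * Real.log 2) / q := by ring
  rw [e, lt_div_iff₀ hq0]
  nlinarith

theorem r_sum (hk : 13 ≤ k) (h1 : (k:ℝ) ^ 5 * A ≤ 4 * q) (h3 : 1 ≤ A) (h4 : A ≤ (k:ℝ) ^ 5)
    (hs : (k:ℝ) ^ 9 * (3 / 10 : ℝ) ^ k ≤ 1) :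
    Real.log (cc k q) + beta k q * (1 + ((8 * k + 1 : ℝ) ^ 4 + 1) * (A * Real.log 2)) ≤
      1000000 := by
  have hk' : (13:ℝ) ≤ k := by exact_mod_cast hk
  have hq := r_big k A q hk h1 h3
  have hq0 : 0 < q := by linarith
  have hl1 := Real.log_two_gt_d9
  have hl2 := Real.log_two_lt_d9
  obtain ⟨c1, c2⟩ := r_cc k q hk hq
  obtain ⟨d1, d2⟩ := r_beta k q hk hq
  have hkq : (k:ℝ) / q ≤ 1 / 6000 := by
    rw [div_le_div_iff₀ hq0 (by norm_num)]; linarith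
  have e1 : Real.log (cc k q) ≤ 1 := by
    have h5 : Real.log (cc k q) ≤ 48 * k / q := by
      rw [← Real.log_exp (48 * k / q)]
      exact Real.log_le_log (by linarith) c2
    have h6 : 48 * (k:ℝ) / q = 48 * (k / q) := by ring
    rw [h6] at h5
    linarith
  have e2 : (8 * k + 1 : ℝ) ^ 4 + 1 ≤ 6561 * (k:ℝ) ^ 4 := by
    have h5 : (8 * k + 1 : ℝ) ^ 4 + 1 ≤ (8 * k + 2 : ℝ) ^ 4 := by
      nlinarith [sq_nonneg (k:ℝ), sq_nonneg ((k:ℝ) * k)]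
    have h6 : (8 * k + 2 : ℝ) ^ 4 ≤ (9 * (k:ℝ)) ^ 4 :=
      pow_le_pow_left₀ (by positivity) (by linarith) 4
    calc (8 * k + 1 : ℝ) ^ 4 + 1 ≤ (9 * (k:ℝ)) ^ 4 := h5.trans h6
      _ = 6561 * (k:ℝ) ^ 4 := by ring
  have b3 : 0 < A * Real.log 2 := by positivity
  have e3 : 1 + ((8 * k + 1 : ℝ) ^ 4 + 1) * (A * Real.log 2) ≤
      1 + 6561 * (k:ℝ) ^ 4 * (A * Real.log 2) := by
    have := mul_le_mul_of_nonneg_right e2 b3.le
    linarith
  have e4 : 0 ≤ 1 + 6561 * (k:ℝ) ^ 4 * (A * Real.log 2) := by positivity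
  have e5 : beta k q * (1 + ((8 * k + 1 : ℝ) ^ 4 + 1) * (A * Real.log 2)) ≤
      (24 * k / q + 2 * (3 / 10 : ℝ) ^ k) * (1 + 6561 * (k:ℝ) ^ 4 * (A * Real.log 2)) :=
    mul_le_mul d2 e3 (by positivity) (by positivity)
  have e6 : 24 * k / q * (1 + 6561 * (k:ℝ) ^ 4 * (A * Real.log 2)) =
      24 * (k / q) + 157464 * ((((k:ℝ) ^ 5 * A) / q) * Real.log 2) := by ring
  have e7 : ((k:ℝ) ^ 5 * A) / q ≤ 4 := by
    rw [div_le_iff₀ hq0]; exact h1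
  have e8 : (((k:ℝ) ^ 5 * A) / q) * Real.log 2 ≤ 4 * 0.6931471808 :=
    mul_le_mul e7 hl2.le (by positivity) (by norm_num)
  have e9 : (3 / 10 : ℝ) ^ k ≤ 1 := pow_le_one₀ (by norm_num) (by norm_num)
  have e10 : (3 / 10 : ℝ) ^ k * ((k:ℝ) ^ 4 * (A * Real.log 2)) ≤ 1 := by
    have h5 : A * Real.log 2 ≤ (k:ℝ) ^ 5 * 1 :=
      mul_le_mul h4 (by linarith) (by positivity) (by positivity)
    calc (3 / 10 : ℝ) ^ k * ((k:ℝ) ^ 4 * (A * Real.log 2))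
        ≤ (3 / 10 : ℝ) ^ k * ((k:ℝ) ^ 4 * ((k:ℝ) ^ 5 * 1)) := by
          apply mul_le_mul_of_nonneg_left _ (by positivity)
          exact mul_le_mul_of_nonneg_left h5 (by positivity)
      _ = (k:ℝ) ^ 9 * (3 / 10 : ℝ) ^ k := by ring
      _ ≤ 1 := hs
  have e11 : (24 * k / q + 2 * (3 / 10 : ℝ) ^ k) * (1 + 6561 * (k:ℝ) ^ 4 * (A * Real.log 2)) =
      24 * k / q * (1 + 6561 * (k:ℝ) ^ 4 * (A * Real.log 2)) + 2 * (3 / 10 : ℝ) ^ k +
      13122 * ((3 / 10 : ℝ) ^ k * ((k:ℝ) ^ 4 * (A * Real.log 2))) := by ring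
  rw [e11, e6] at e5
  norm_num at e8
  linarith

end real

theorem num : S_NUM := by
  have ev : ∀ k : ℕ, 13 ≤ k → ((k:ℝ) ^ 5 * (ax k : ℝ) ≤ 4 * (2:ℝ) ^ ax k ∧
      2 * (2:ℝ) ^ ax k ≤ (k:ℝ) ^ 5 * (ax k : ℝ) ∧ 1 ≤ (ax k : ℝ) ∧ (ax k : ℝ) ≤ (k:ℝ) ^ 5) := by
    intro k hk
    refine ⟨?_, ?_, ?_, ?_⟩
    · exact_mod_cast (ax_spec k).2
    · exact_mod_cast ax_min k (by omega)
    · exact_mod_cast (ax_spec k).1
    · exact_mod_cast ax_le k (by omega)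
  refine ⟨ax, fun k => (ax_spec k).1, ?_, ?_⟩
  · have hsm : ∀ᶠ k : ℕ in atTop, (k:ℝ) ^ 9 * (3 / 10 : ℝ) ^ k ≤ 1 := by
      have ht := tendsto_pow_const_mul_const_pow_of_abs_lt_one 9
        (r := (3 / 10 : ℝ)) (by rw [abs_of_pos (by norm_num)]; norm_num)
      exact (ht.eventually (Iio_mem_nhds (by norm_num : (0:ℝ) < 1))).mono (fun k hk => le_of_lt hk)
    filter_upwards [hsm, eventually_ge_atTop 13] with k hs hk
    obtain ⟨h1, h2, h3, h4⟩ := ev k hk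
    have hk' : (13:ℝ) ≤ k := by exact_mod_cast hk
    have hq := r_big k _ _ hk h1 h3
    rw [Real.log_pow]
    exact ⟨by linarith, r_main k _ _ hk h1 h2 h3, r_sum k _ _ hk h1 h3 h4 hs⟩
  · have hb : Tendsto (fun k : ℕ => (Real.exp (192 / (k:ℝ)) - 1) +
        2 * (96 / (k:ℝ) + 2 * (3 / 10 : ℝ) ^ k)) atTop (𝓝 0) := by
      have t1 : Tendsto (fun k : ℕ => (192 : ℝ) / (k:ℝ)) atTop (𝓝 0) :=
        tendsto_const_div_atTop_nhds_zero_nat 192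
      have t2 : Tendsto (fun k : ℕ => (96 : ℝ) / (k:ℝ)) atTop (𝓝 0) :=
        tendsto_const_div_atTop_nhds_zero_nat 96
      have t3 : Tendsto (fun k : ℕ => (3 / 10 : ℝ) ^ k) atTop (𝓝 0) :=
        tendsto_pow_atTop_nhds_zero_of_lt_one (by norm_num) (by norm_num)
      have t4 : Tendsto (fun k : ℕ => Real.exp (192 / (k:ℝ))) atTop (𝓝 1) := by
        have := (Real.continuous_exp.tendsto 0).comp t1
        rw [Real.exp_zero] at this
        exact this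
      have t5 := (t4.sub_const 1).add ((t2.add (t3.const_mul 2)).const_mul 2)
      simpa using t5
    refine tendsto_of_tendsto_of_tendsto_of_le_of_le' tendsto_const_nhds hb ?_ ?_
    · filter_upwards [eventually_ge_atTop 13] with k hk
      obtain ⟨h1, h2, h3, h4⟩ := ev k hk
      have hq := r_big k _ _ hk h1 h3
      have c := r_cc k _ hk hq
      have d := r_beta k _ hk hq
      linarith [c.1, d.1]
    · filter_upwards [eventually_ge_atTop 13] with k hk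
      obtain ⟨h1, h2, h3, h4⟩ := ev k hk
      have hk' : (13:ℝ) ≤ k := by exact_mod_cast hk
      have hq := r_big k _ _ hk h1 h3
      have hq5 := r_q k _ _ h1 h3
      have hq0 : (0:ℝ) < 2 ^ ax k := by positivity
      have c := r_cc k _ hk hq
      have d := r_beta k _ hk hq
      have hk2 : (k:ℝ) ^ 2 / 4 ≤ 2 ^ ax k := by
        have : (k:ℝ) ^ 2 ≤ (k:ℝ) ^ 5 := pow_le_pow_right₀ (by linarith) (by norm_num)
        linarith
      have f1 : 48 * (k:ℝ) / 2 ^ ax k ≤ 192 / k := by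
        rw [div_le_div_iff₀ hq0 (by linarith)]
        nlinarith
      have f2 : 24 * (k:ℝ) / 2 ^ ax k ≤ 96 / k := by
        rw [div_le_div_iff₀ hq0 (by linarith)]
        nlinarith
      have f3 := Real.exp_le_exp.mpr f1
      linarith [c.2, d.2]

end Pool.Agent.Y908.EC
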